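import Pool.Agent.Lib.MP_d55432_al.G2.Iface

/-!
# G2, module NILC: a good flag for nilpotent elements without a kernel vector of nonzero norm
-/

namespace Pool.Agent.Lib.MP_d55432_al.G2.H84

open Matrix LieAlgebra Pool.Agent.Lib.MP_d55432_al.G2

attribute [local instance 100] LieRing.ofAssociativeRing

section

variable {K : Type*} [Field K] [CharZero K]

theorem iso_of_br {w y : V7 K} (hw : qq w = 0) (hw0 : w ≠ 0) (h : br w y = 0) :
    bb w y = 0 ∧ qq y = 0 := by
  have hz : ∀ z : V7 K, br z 0 = 0 := fun z => by simpa using br_smul_right (0 : K) z z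
  have h1 := br_br w y
  rw [h, hz, hw, mul_zero, zero_smul, zero_sub, eq_comm, neg_eq_zero] at h1
  have hb : bb w y = 0 := by
    rcases smul_eq_zero.mp h1 with h2 | h2
    · rcases mul_eq_zero.mp h2 with h3 | h3
      · exact absurd h3 two_ne_zero
      · exact h3
    · exact absurd h2 hw0
  refine ⟨hb, ?_⟩
  have h2 := br_br y w
  have h3 : br y w = 0 := by rw [br_swap, h, neg_zero]
  rw [h3, hz, bb_comm, hb, mul_zero, zero_smul, sub_zero, eq_comm] at h2
  rcases smul_eq_zero.mp h2 with h4 | h4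
  · rcases mul_eq_zero.mp h4 with h5 | h5
    · exact absurd h5 (by norm_num)
    · exact h5
  · exact absurd h4 hw0

/-- Isotropic vectors come from isotropic vectors. -/
theorem qq_of_qq {g h : M7 K} (H : IsG g h) {e : V7 K} (he : qq (g *ᵥ e) = 0) : qq e = 0 := by
  by_contra hne
  have key : ∀ z : V7 K, ∃ c : K, z = c • e := by
    intro z
    have h1 : g *ᵥ br e (br e z) = g *ᵥ ((4 * qq e) • z - (2 * bb e z) • e) := by rw [br_br]
    rw [H.2.2, H.2.2, br_br, he, mul_zero, zero_smul, mulVec_sub, mulVec_smul, mulVec_smul] at h1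
    have h2 : (4 * qq e) • (g *ᵥ z) =
        (2 * bb e z - 2 * bb (g *ᵥ e) (g *ᵥ z)) • (g *ᵥ e) := by
      rw [sub_smul]
      linear_combination (exp := 1) -h1
    have h3 : h *ᵥ ((4 * qq e) • (g *ᵥ z)) =
        h *ᵥ ((2 * bb e z - 2 * bb (g *ᵥ e) (g *ᵥ z)) • (g *ᵥ e)) := by rw [h2]
    rw [mulVec_smul, mulVec_smul, mulVec_mulVec, mulVec_mulVec, H.2.1, one_mulVec, one_mulVec] at h3
    refine ⟨(4 * qq e)⁻¹ * (2 * bb e z - 2 * bb (g *ᵥ e) (g *ᵥ z)), ?_⟩
    rw [mul_smul, ← h3, smul_smul, inv_mul_cancel₀ (mul_ne_zero (by norm_num) hne), one_smul]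
  obtain ⟨c0, h0⟩ := key (ee 0)
  obtain ⟨c1, h1⟩ := key (ee 1)
  have e0 : (1 : K) = c0 * e 0 := by simpa [ee] using congrFun h0 0
  have e1 : (1 : K) = c1 * e 1 := by simpa [ee] using congrFun h1 1
  have e2 : (0 : K) = c1 * e 0 := by simpa [ee] using congrFun h1 0
  rcases mul_eq_zero.mp e2.symm with h | h
  · rw [h, zero_mul] at e1; exact one_ne_zero e1
  · rw [h, mul_zero] at e0; exact one_ne_zero e0

omit [CharZero K] in
/-- If `z` is orthogonal to the isotropic vector `w`, then `br w (br w z) = 0`. -/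
theorem br_br_zero {w z : V7 K} (hw : qq w = 0) (hz : bb w z = 0) : br w (br w z) = 0 := by
  rw [br_br, hw, hz, mul_zero, mul_zero, zero_smul, zero_smul, sub_zero]

/-- The null space of an isotropic vector is larger than its line. -/
theorem exists_null {w : V7 K} (hw : qq w = 0) (hw0 : w ≠ 0) :
    ∃ y : V7 K, br w y = 0 ∧ ∀ c : K, y ≠ c • w := by
  have main : ∀ (z : V7 K) (i j : Fin 7), bb w z = 0 → (br w z) i = 0 → w i ≠ 0 →
      (br w z) j ≠ 0 → ∃ y : V7 K, br w y = 0 ∧ ∀ c : K, y ≠ c • w := by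
    intro z i j h1 h2 h3 h4
    refine ⟨br w z, br_br_zero hw h1, fun c hc => ?_⟩
    rw [hc] at h2 h4
    have h5 : c * w i = 0 := h2
    rcases mul_eq_zero.mp h5 with h6 | h6
    · rw [h6] at h4
      exact h4 (by simp)
    · exact h3 h6
  by_cases h1 : w 1 = 0
  · by_cases h2 : w 2 = 0
    · by_cases h3 : w 3 = 0
      · by_cases h4 : w 4 = 0
        · by_cases h5 : w 5 = 0
          · by_cases h6 : w 6 = 0
            · exfalso
              apply hw0
              have h0 : w 0 = 0 := by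
                have : qq w = 0 := hw
                simp only [qq, h1, h2, h3, zero_mul, add_zero] at this
                exact pow_eq_zero_iff (two_ne_zero) |>.mp this
              funext i
              fin_cases i <;> simp [h0, h1, h2, h3, h4, h5, h6]
            · refine main ![0, 0, 0, -w 1, w 6, 0, 0] 6 2 ?_ ?_ h6 ?_
              · simp [bb]; ring
              · simp [br]
              · simp [br, h6]
          · refine main ![0, 0, -w 3, 0, 0, 0, w 5] 5 1 ?_ ?_ h5 ?_
            · simp [bb]; ring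
            · simp [br]
            · simp [br, h5]
        · refine main ![0, -w 2, 0, 0, 0, w 4, 0] 4 3 ?_ ?_ h4 ?_
          · simp [bb]; ring
          · simp [br]
          · simp [br, h4]
      · refine main ![0, w 3, 0, 0, 0, 0, -w 4] 3 5 ?_ ?_ h3 ?_
        · simp [bb]; ring
        · simp [br]
        · simp [br, h3]
    · refine main ![0, 0, 0, w 2, 0, -w 6, 0] 2 4 ?_ ?_ h2 ?_
      · simp [bb]; ring
      · simp [br]
      · simp [br, h2]
  · refine main ![0, 0, w 1, 0, -w 5, 0, 0] 1 6 ?_ ?_ h1 ?_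
    · simp [bb]; ring
    · simp [br]
    · simp [br, h1]

/-- A null vector outside the line of `w` which is mapped to the line. -/
theorem exists_step {X : M7 K} (hX : X ∈ g2 K) (hX7 : X ^ 7 = 0) {w : V7 K} (hw : qq w = 0)
    (hw0 : w ≠ 0) (hXw : X *ᵥ w = 0) :
    ∃ y : V7 K, br w y = 0 ∧ (∀ c : K, y ≠ c • w) ∧ ∃ c : K, X *ᵥ y = c • w := by
  classical
  obtain ⟨y, hy, hyw⟩ := exists_null hw hw0
  have hz : ∀ z : V7 K, br 0 z = 0 := fun z => by simpa using br_smul_left (0 : K) z z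
  have hst : ∀ y : V7 K, br w y = 0 → br w (X *ᵥ y) = 0 := by
    intro y hy
    have h1 := hX w y
    rw [hy, mulVec_zero, hXw, hz, zero_add] at h1
    exact h1.symm
  have hpow : ∀ k : ℕ, br w ((X ^ k) *ᵥ y) = 0 := by
    intro k
    induction k with
    | zero => simpa using hy
    | succ k ih =>
      rw [pow_succ', ← mulVec_mulVec]
      exact hst _ ih
  have hex : ∃ k : ℕ, ∃ c : K, (X ^ k) *ᵥ y = c • w := ⟨7, 0, by rw [hX7, zero_mulVec, zero_smul]⟩
  obtain ⟨c, hc⟩ := Nat.find_spec hex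
  have hne : Nat.find hex ≠ 0 := by
    intro h0
    rw [h0] at hc
    exact hyw c (by simpa using hc)
  obtain ⟨k, hk⟩ := Nat.exists_eq_succ_of_ne_zero hne
  refine ⟨(X ^ k) *ᵥ y, hpow k, fun c' hc' => ?_, c, ?_⟩
  · exact Nat.find_min hex (m := k) (by rw [hk]; exact Nat.lt_succ_self k) ⟨c', hc'⟩
  · rw [mulVec_mulVec, ← pow_succ', ← Nat.succ_eq_add_one, ← hk]
    exact hc

/-- The standard position. -/
def Xs (f2 f3 b d c : K) : M7 K := gM ![0, 0, f2, f3, 0, b, 0, 0, d, 0, 0, 0, 0, c]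

omit [CharZero K] in
theorem root_ok {f2 f3 b d c s t A B : K} (hA : A = 2 * d * s * t - f2 * s ^ 2 - c * t ^ 2)
    (hB : B = 2 * c * s * t - d * s ^ 2 - b * t ^ 2) (hr : A * s = B * t) (h0 : A ≠ 0 ∨ B ≠ 0) :
    ∃ w y : V7 K, qq w = 0 ∧ qq y = 0 ∧ br w y = 0 ∧ w ≠ 0 ∧ Xs f2 f3 b d c *ᵥ w = 0 ∧
      Xs f2 f3 b d c *ᵥ y = w := by
  refine ⟨![0, A, 0, 0, 0, 0, B], ![s * t, 0, -s ^ 2, 0, 0, t ^ 2, 0], ?_, ?_, ?_, ?_, ?_, ?_⟩
  · simp [qq]
  · simp [qq]; ring
  · funext i
    fin_cases i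
    · simp [br]
    · simp [br]; right; linear_combination (-t) * hr
    · simp [br]
    · simp [br]
    · simp [br]
    · simp [br]
    · simp [br]; right; linear_combination (-s) * hr
  · intro h
    rcases h0 with h1 | h1
    · exact h1 (by simpa using congrFun h 1)
    · exact h1 (by simpa using congrFun h 6)
  · funext i
    fin_cases i <;> simp [Xs, gM, Matrix.mulVec, dotProduct, Fin.sum_univ_succ]
  · funext i
    fin_cases i <;> simp [Xs, gM, Matrix.mulVec, dotProduct, Fin.sum_univ_succ]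
    · rw [hA]; ring
    · rw [hB]; ring

theorem core [IsAlgClosed K] (f2 f3 b d c : K)
    (hker : ∀ e : V7 K, Xs f2 f3 b d c *ᵥ e = 0 → qq e = 0) :
    ∃ w y : V7 K, qq w = 0 ∧ qq y = 0 ∧ br w y = 0 ∧ w ≠ 0 ∧ Xs f2 f3 b d c *ᵥ w = 0 ∧
      Xs f2 f3 b d c *ᵥ y = w := by
  by_cases hf : f2 = 0
  · by_cases hd : d = 0
    · by_cases hc : c = 0
      · exfalso
        subst hf hd hc
        have h1 := hker ![1, 0, 0, 0, 0, 0, 0] (by
          funext i
          fin_cases i <;> simp [Xs, gM, Matrix.mulVec, dotProduct, Fin.sum_univ_succ])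
        simp [qq] at h1
      · subst hf hd
        refine root_ok (s := b) (t := 3 * c) rfl rfl (by ring) (Or.inl ?_)
        have : (2 * 0 * b * (3 * c) - 0 * b ^ 2 - c * (3 * c) ^ 2 : K) = -(9 * c ^ 3) := by ring
        rw [this]
        exact neg_ne_zero.mpr (mul_ne_zero (by norm_num) (pow_ne_zero 3 hc))
    · subst hf
      refine root_ok (s := 1) (t := 0) rfl rfl (by ring) (Or.inr ?_)
      have : (2 * c * 1 * 0 - d * 1 ^ 2 - b * 0 ^ 2 : K) = -d := by ring
      rw [this]
      exact neg_ne_zero.mpr hd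
  · obtain ⟨s, hs⟩ := IsAlgClosed.exists_root (Polynomial.C (-f2) * Polynomial.X ^ 3 +
      Polynomial.C (3 * d) * Polynomial.X ^ 2 + Polynomial.C (-(3 * c)) * Polynomial.X +
      Polynomial.C b) (by
        rw [Polynomial.degree_cubic (neg_ne_zero.mpr hf)]
        decide)
    have hs' : -f2 * s ^ 3 + 3 * d * s ^ 2 + -(3 * c) * s + b = 0 := by
      have := hs
      simp only [Polynomial.IsRoot.def, Polynomial.eval_add, Polynomial.eval_mul,
        Polynomial.eval_C, Polynomial.eval_pow, Polynomial.eval_X] at this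
      exact this
    by_cases hA : 2 * d * s * 1 - f2 * s ^ 2 - c * 1 ^ 2 = 0
    · have hc : c = 2 * d * s - f2 * s ^ 2 := by linear_combination (-1 : K) * hA
      have hb : b = 3 * d * s ^ 2 - 2 * f2 * s ^ 3 := by
        linear_combination hs' + 3 * s * hc
      by_cases hds : d = f2 * s
      · exfalso
        subst hds
        have h1 := hker ![1, 0, -(2 * s), 0, 0, 0, 0] (by
          funext i
          fin_cases i <;> simp [Xs, gM, Matrix.mulVec, dotProduct, Fin.sum_univ_succ]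
          · ring
          · rw [hc]; ring)
        simp [qq] at h1
      · refine root_ok (s := 3 * d - 2 * f2 * s) (t := f2) rfl rfl ?_ (Or.inl ?_)
        · rw [hb, hc]; ring
        · have : 2 * d * (3 * d - 2 * f2 * s) * f2 - f2 * (3 * d - 2 * f2 * s) ^ 2 - c * f2 ^ 2 =
              -(3 * f2 * (d - f2 * s) ^ 2) := by
            rw [hc]; ring
          rw [this]
          refine neg_ne_zero.mpr (mul_ne_zero (mul_ne_zero (by norm_num) hf) (pow_ne_zero 2 ?_))
          exact sub_ne_zero.mpr hds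
    · refine root_ok (s := s) (t := 1) rfl rfl ?_ (Or.inl hA)
      linear_combination hs'

/-- NILC: a good flag for the nilpotent elements without a kernel vector of nonzero norm. -/
theorem nilc' [IsAlgClosed K] (hF : FLAG_S K) (hP : PARAM_S K) : NILC_S K := by
  intro X hX hX7 hker
  have hdet : X.det = 0 := by
    have h1 : (X ^ 7).det = 0 := by rw [hX7]; exact Matrix.det_zero
    rw [Matrix.det_pow] at h1
    exact pow_eq_zero_iff (by norm_num) |>.mp h1
  obtain ⟨w, hw0, hXw⟩ := Matrix.exists_mulVec_eq_zero_iff.mpr hdet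
  have hw := hker w hXw
  obtain ⟨y, hy, hyw, c, hc⟩ := exists_step hX hX7 hw hw0 hXw
  by_cases hc0 : c = 0
  · rw [hc0, zero_smul] at hc
    have hyq := (iso_of_br hw hw0 hy).2
    obtain ⟨g, h, H, hg1, hg6⟩ := hF w y hw hyq hy hw0 hyw
    have hX' := conj_mem H.symm hX
    obtain ⟨f, hf⟩ := (hP (h * X * g)).mp hX'
    have e1 : (h * X * g) *ᵥ ee 1 = 0 := by
      rw [← mulVec_mulVec, hg1, ← mulVec_mulVec, hXw, mulVec_zero]
    have e6 : (h * X * g) *ᵥ ee 6 = 0 := by
      rw [← mulVec_mulVec, hg6, ← mulVec_mulVec, hc, mulVec_zero]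
    rw [hf] at e1 e6
    have a0 := congrFun e1 0
    have a1 := congrFun e1 1
    have a2 := congrFun e1 2
    have a3 := congrFun e1 3
    have a5 := congrFun e1 5
    have a6 := congrFun e1 6
    have b1 := congrFun e6 1
    have b5 := congrFun e6 5
    have b6 := congrFun e6 6
    simp [ee, gM] at a0 a1 a2 a3 a5 a6 b1 b5 b6
    have b6' : f 1 = 0 := by rw [a1, zero_add] at b6; exact b6
    have hfs : f = ![0, 0, f 2, f 3, 0, f 5, 0, 0, f 8, 0, 0, 0, 0, f 13] := by
      funext i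
      fin_cases i <;> simp [a0, a1, a2, a3, a5, a6, b1, b5, b6']
    have hXs : h * X * g = Xs (f 2) (f 3) (f 5) (f 8) (f 13) := by
      rw [hf, Xs, ← hfs]
    have hgX : g * Xs (f 2) (f 3) (f 5) (f 8) (f 13) = X * g := by
      rw [← hXs, ← Matrix.mul_assoc, ← Matrix.mul_assoc, H.1, Matrix.one_mul]
    have hgX' : ∀ e : V7 K, X *ᵥ (g *ᵥ e) = g *ᵥ (Xs (f 2) (f 3) (f 5) (f 8) (f 13) *ᵥ e) := by
      intro e
      rw [mulVec_mulVec, mulVec_mulVec, hgX]
    obtain ⟨w', y', -, -, hbr, hw'0, hXw', hXy'⟩ := core (f 2) (f 3) (f 5) (f 8) (f 13) (by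
      intro e he
      refine qq_of_qq H (hker _ ?_)
      rw [hgX', he, mulVec_zero])
    have hgw0 : g *ᵥ w' ≠ 0 := by
      intro h0
      apply hw'0
      have h1 : h *ᵥ (g *ᵥ w') = 0 := by rw [h0, mulVec_zero]
      rwa [mulVec_mulVec, H.2.1, one_mulVec] at h1
    have hXgw : X *ᵥ (g *ᵥ w') = 0 := by rw [hgX', hXw', mulVec_zero]
    have hqw := hker _ hXgw
    have hbr' : br (g *ᵥ w') (g *ᵥ y') = 0 := by rw [← H.2.2, hbr, mulVec_zero]
    exact ⟨g *ᵥ w', g *ᵥ y', hqw, (iso_of_br hqw hgw0 hbr').2, hbr', hgw0, hXgw,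
      by rw [hgX', hXy']⟩
  · have hXy : X *ᵥ (c⁻¹ • y) = w := by
      rw [mulVec_smul, hc, smul_smul, inv_mul_cancel₀ hc0, one_smul]
    have hby : br w (c⁻¹ • y) = 0 := by rw [br_smul_right, hy, smul_zero]
    exact ⟨w, c⁻¹ • y, hw, (iso_of_br hw hw0 hby).2, hby, hw0, hXw, hXy⟩

end

end Pool.Agent.Lib.MP_d55432_al.G2.H84

namespace Pool.Agent.Lib.MP_d55432_al.G2

/-- NILC: a good flag for the nilpotent elements without a kernel vector of nonzero norm. -/
theorem nilc (K : Type*) [Field K] [CharZero K] [IsAlgClosed K] (hF : FLAG_S K)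
    (hP : PARAM_S K) : NILC_S K := H84.nilc' hF hP

end Pool.Agent.Lib.MP_d55432_al.G2
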